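import Pool.Agent.Q285.TJ.Main

/-!
# Degree-one defects in minimum joins on odd toroidal grids
-/

namespace Pool.Agent.Results.MP_6e06a5_co.DegreeOneDefects

open Finset Pool.Agent.Q285.TJ

/-- The `L × L` toroidal grid graph: `(i, j)` is adjacent to `(i ± 1, j)` and `(i, j ± 1)`. -/
def torusGrid (L : ℕ) : SimpleGraph (ZMod L × ZMod L) :=
  SimpleGraph.fromRel fun u v => v = (u.1 + 1, u.2) ∨ v = (u.1, u.2 + 1)

/-- The number of the edges of `J` which are incident to the vertex `v`. -/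
def jdeg {L : ℕ} (J : Finset (Sym2 (ZMod L × ZMod L))) (v : ZMod L × ZMod L) : ℕ :=
  (J.filter fun e => v ∈ e).card

/-- `J` is a `D`-join: a set of edges of the grid for which exactly the vertices of `D` have
odd degree. -/
def IsDJoin {L : ℕ} (D : Finset (ZMod L × ZMod L)) (J : Finset (Sym2 (ZMod L × ZMod L))) : Prop :=
  (∀ e ∈ J, e ∈ (torusGrid L).edgeSet) ∧ ∀ v, Odd (jdeg J v) ↔ v ∈ D

/-- `J` is a minimum `D`-join. -/
def IsMinDJoin {L : ℕ} (D : Finset (ZMod L × ZMod L)) (J : Finset (Sym2 (ZMod L × ZMod L))) :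
    Prop :=
  IsDJoin D J ∧ ∀ J', IsDJoin D J' → J.card ≤ J'.card

variable {L : ℕ}

/-- The edge with given coordinates. -/
def toSym (e : E L) : Sym2 (V L) := s(e.1, e.1 + unit e.2)

lemma unit_eq_dir (k : Bool) : (unit k : V L) = dir k true := rfl

lemma toSym_inj (hL : 3 ≤ L) : Function.Injective (toSym : E L → Sym2 (V L)) := by
  rintro ⟨v, k⟩ ⟨v', k'⟩ h
  unfold toSym at h
  rw [Sym2.eq_iff] at h
  rcases h with ⟨h1, h2⟩ | ⟨h1, h2⟩
  · simp only at h1 h2
    subst h1
    have h3 := dir_inj hL k k' true true (add_left_cancel h2)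
    rw [h3.1]
  · simp only at h1 h2
    rw [h1, add_assoc, add_eq_left, ← neg_eq_iff_add_eq_zero, unit_eq_dir, unit_eq_dir,
      ← dir_not] at h2
    exact absurd (dir_inj hL _ _ _ _ h2).2 (by decide)

lemma mem_toSym (v : V L) (e : E L) : v ∈ toSym e ↔ ∃ k s, ed v k s = e := by
  obtain ⟨x, k⟩ := e
  unfold toSym
  rw [Sym2.mem_iff]
  constructor
  · rintro (rfl | rfl)
    · exact ⟨k, true, rfl⟩
    · exact ⟨k, false, by simp [ed]⟩
  · rintro ⟨k', s, h⟩
    cases s
    · simp only [ed, Bool.false_eq_true, if_false, Prod.mk.injEq] at h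
      right
      rw [← h.1, h.2]
      simp
    · simp only [ed, if_true, Prod.mk.injEq] at h
      exact Or.inl h.1

lemma mem_edgeSet (hL : 3 ≤ L) (x : Sym2 (V L)) :
    x ∈ (torusGrid L).edgeSet ↔ ∃ e, toSym e = x := by
  induction x using Sym2.ind with
  | _ u v =>
    rw [SimpleGraph.mem_edgeSet, torusGrid, SimpleGraph.fromRel_adj]
    constructor
    · rintro ⟨-, (h | h) | (h | h)⟩
      · refine ⟨(u, false), ?_⟩
        simp [toSym, unit, h, Prod.ext_iff]
      · refine ⟨(u, true), ?_⟩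
        simp [toSym, unit, h, Prod.ext_iff]
      · refine ⟨(v, false), ?_⟩
        simp [toSym, unit, h, Prod.ext_iff]
      · refine ⟨(v, true), ?_⟩
        simp [toSym, unit, h, Prod.ext_iff]
    · rintro ⟨⟨w, k⟩, h⟩
      unfold toSym at h
      rw [Sym2.eq_iff] at h
      have h1 := ne_add_dir hL w k true
      have h2 : w + unit k = if k then (w.1, w.2 + 1) else (w.1 + 1, w.2) := by
        cases k <;> simp [unit, Prod.ext_iff]
      rcases h with ⟨rfl, rfl⟩ | ⟨rfl, rfl⟩
      · refine ⟨h1, Or.inl ?_⟩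
        rw [h2]
        cases k <;> simp
      · refine ⟨h1.symm, Or.inr ?_⟩
        rw [h2]
        cases k <;> simp

lemma jdeg_image (hL : 3 ≤ L) (J : Finset (E L)) (v : V L) :
    jdeg (J.image toSym) v = deg J v := by
  unfold jdeg
  rw [filter_image, card_image_of_injective _ (toSym_inj hL)]
  have h1 : (J.filter fun e => v ∈ toSym e) =
      ((univ : Finset (Bool × Bool)).filter fun p => ed v p.1 p.2 ∈ J).image
        fun p => ed v p.1 p.2 := by
    ext e
    simp only [mem_filter, mem_image, mem_univ, true_and, mem_toSym]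
    constructor
    · rintro ⟨h1, k, s, rfl⟩
      exact ⟨(k, s), h1, rfl⟩
    · rintro ⟨⟨k, s⟩, h1, rfl⟩
      exact ⟨h1, k, s, rfl⟩
  rw [h1, card_image_of_injOn, card_filter, deg, Fintype.sum_prod_type]
  rintro ⟨k, s⟩ - ⟨k', s'⟩ - h
  simp only [ed_eq_iff] at h
  obtain ⟨rfl, ⟨-, rfl⟩ | ⟨h, -⟩⟩ := h
  · rfl
  · exact absurd h (ne_add_dir hL _ _ _)

lemma isDJoin_image (hL : 3 ≤ L) (D : Finset (V L)) (J : Finset (E L)) :
    IsDJoin D (J.image toSym) ↔ IsJoin D J := by
  unfold IsDJoin IsJoin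
  simp only [jdeg_image hL]
  constructor
  · exact fun h => h.2
  · refine fun h => ⟨fun e he => ?_, h⟩
    rw [mem_edgeSet hL]
    obtain ⟨e', -, rfl⟩ := mem_image.1 he
    exact ⟨e', rfl⟩

/-- For every odd `L ≥ 3` and every set `D` of an even number of vertices of the `L × L` toroidal
grid graph there is a minimum `D`-join in which every vertex of `D` has degree one. -/
theorem result (L : ℕ) (hL : 3 ≤ L) (hodd : Odd L) (D : Finset (ZMod L × ZMod L))
    (hD : Even D.card) : ∃ J, IsMinDJoin D J ∧ ∀ v ∈ D, jdeg J v = 1 := by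
  have : NeZero L := ⟨by omega⟩
  obtain ⟨J, hJ, hdeg⟩ := main hL hodd D hD
  refine ⟨J.image toSym, ⟨(isDJoin_image hL D J).2 hJ.1, fun J' hJ' => ?_⟩, fun v hv => ?_⟩
  · have h1 : J' = (univ.filter fun e => toSym e ∈ J').image toSym := by
      ext x
      simp only [mem_image, mem_filter, mem_univ, true_and]
      constructor
      · intro hx
        obtain ⟨e, rfl⟩ := (mem_edgeSet hL x).1 (hJ'.1 x hx)
        exact ⟨e, hx, rfl⟩
      · rintro ⟨e, he, rfl⟩
        exact he
    rw [h1] at hJ' ⊢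
    rw [isDJoin_image hL] at hJ'
    rw [card_image_of_injective _ (toSym_inj hL), card_image_of_injective _ (toSym_inj hL)]
    exact hJ.2 _ hJ'
  · rw [jdeg_image hL]
    exact hdeg v hv

end Pool.Agent.Results.MP_6e06a5_co.DegreeOneDefects
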